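import Pool.Agent.MP_9590fd_lc.Mg.Fc

namespace Pool.Agent.Results.MP_9590fd_lc.ClubSplit

open Pool.Agent.Lib.Forcing Pool.Agent.MP_1d5a21_lc Pool.Agent.MP_9590fd_lc

theorem result :
    ∃ (M : Type 1) (E : M → M → Prop), ZFC E ∧ ∃ w v, Om E w ∧ Om1 E w v ∧ Club E w v ∧
      (∀ F, Spl E w F → ¬ Leq E F v) ∧ Ioe E w v :=
  model_of ex_gd

end Pool.Agent.Results.MP_9590fd_lc.ClubSplit
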