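import Pool.Agent.MP_9590fd_lc.H86.BMain

set_option autoImplicit false

namespace Pool.Agent.Results.MP_9590fd_lc.DomNoStick

open Pool.Agent.MP_9590fd_lc.H86B

theorem result {B : Type} [CompleteBooleanAlgebra B] (A : ℕ → Set B) (hA : ∀ n, IsSub (A n))
    (mono : ∀ n, A n ⊆ A (n + 1))
    (dom : ∀ n, ∃ d, IsName (A (n + 1)) d ∧ ∀ f, IsName (A n) f → Dom f d)
    (p : (Ordinal.omega.{0} 1).ToType → ℕ → B) (hp : ∀ β, Thread A (p β)) :
    ∃ q : (Ordinal.omega.{0} 1).ToType → ℕ → B, (∀ β, Thread A (q β) ∧ ∀ n, q β n ≤ p β n) ∧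
      ∀ J : Set (Ordinal.omega.{0} 1).ToType, J.Infinite →
        ¬ ∃ r, Thread A r ∧ ∀ β ∈ J, ∀ n, r n ≤ q β n :=
  main A hA mono dom p hp

end Pool.Agent.Results.MP_9590fd_lc.DomNoStick
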